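import Pool.Agent.N720.SL.Stm

/-!
Project CY (helper720), piece KER: positive definite kernels.
-/

set_option autoImplicit false

namespace Pool.Agent.N614.CY.KER

open MeasureTheory Set Metric Complex Finset
open scoped ENNReal NNReal RealInnerProductSpace
open Pool.Agent.N720.SL

variable {n : ℕ}

lemma ex_eq (θ : ℝ) : ex θ = Complex.exp (((2 * Real.pi * θ : ℝ) : ℂ) * Complex.I) := rfl

lemma ex_norm (θ : ℝ) : ‖ex θ‖ = 1 := by
  rw [ex_eq]; exact Complex.norm_exp_ofReal_mul_I _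

lemma ex_sub (a b : ℝ) : ex (a - b) = ex a * (starRingEnd ℂ) (ex b) := by
  simp only [ex_eq, ← Complex.exp_conj, ← Complex.exp_add, map_mul, Complex.conj_ofReal,
    Complex.conj_I]
  congr 1
  push_cast
  ring

lemma ex_cont {X : Type*} [TopologicalSpace X] {f : X → ℝ} (hf : Continuous f) :
    Continuous fun x => ex (f x) := by
  unfold ex
  fun_prop

lemma int_ex (t : Measure (E n)) (z : E n) :
    ∫ x, ex ⟪x, z⟫ ∂t = charFun t ((2 * Real.pi) • z) := by
  rw [charFun_apply]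
  congr 1
  funext x
  rw [ex_eq]
  congr 2
  rw [real_inner_smul_right]

/-- the kernel `G(ξ) conj G(η)` -/
noncomputable def K2 (G : E n → ℂ) (p : E n × E n) : ℂ := G p.1 * (starRingEnd ℂ) (G p.2)

lemma conj_int {μ : Measure (E n)} {G : E n → ℂ} (hG : Integrable G μ) :
    Integrable (fun ξ => (starRingEnd ℂ) (G ξ)) μ :=
  (Complex.conjLIE.toLinearIsometry.toContinuousLinearMap.integrable_comp hG :)

lemma K2_int {μ : Measure (E n)} [SFinite μ] {G : E n → ℂ} (hG : Integrable G μ) :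
    Integrable (K2 G) (μ.prod μ) :=
  hG.mul_prod (conj_int hG)

lemma hat_sq {μ : Measure (E n)} [SFinite μ] {G : E n → ℂ} (_hG : Integrable G μ) (x : E n) :
    ((‖hat μ G x‖ ^ 2 : ℝ) : ℂ) = ∫ p, K2 G p * ex ⟪x, p.1 - p.2⟫ ∂(μ.prod μ) := by
  have h1 : ((‖hat μ G x‖ ^ 2 : ℝ) : ℂ) = hat μ G x * (starRingEnd ℂ) (hat μ G x) := by
    rw [Complex.mul_conj, Complex.normSq_eq_norm_sq]
  rw [h1]
  unfold hat
  rw [← integral_conj, ← integral_prod_mul]
  congr 1
  funext p
  unfold K2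
  rw [inner_sub_right, ex_sub, map_mul]
  ring

lemma pair_int {μ : Measure (E n)} [SFinite μ] {G : E n → ℂ} (hG : Integrable G μ)
    (t : Measure (E n)) [IsFiniteMeasure t] :
    Integrable (Function.uncurry fun (x : E n) (p : E n × E n) => K2 G p * ex ⟪x, p.1 - p.2⟫)
      (t.prod (μ.prod μ)) := by
  have h1 : Integrable (fun z : E n × (E n × E n) => (1 : ℂ) * K2 G z.2) (t.prod (μ.prod μ)) :=
    (integrable_const (1 : ℂ)).mul_prod (K2_int hG)
  have h2 : Integrable (fun z : E n × (E n × E n) => ((1 : ℂ) * K2 G z.2) *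
      ex ⟪z.1, z.2.1 - z.2.2⟫) (t.prod (μ.prod μ)) := by
    apply h1.mul_bdd (c := 1)
    · apply Continuous.aestronglyMeasurable
      apply ex_cont
      fun_prop
    · exact Filter.Eventually.of_forall fun z => by rw [ex_norm]
  refine h2.congr (Filter.Eventually.of_forall fun z => ?_)
  simp [Function.uncurry]

/-- The quadratic form of a finite measure. -/
lemma quad {μ : Measure (E n)} [SFinite μ] {G : E n → ℂ} (hG : Integrable G μ)
    (t : Measure (E n)) [IsFiniteMeasure t] :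
    ((∫ x, ‖hat μ G x‖ ^ 2 ∂t : ℝ) : ℂ) =
      ∫ p, K2 G p * charFun t ((2 * Real.pi) • (p.1 - p.2)) ∂(μ.prod μ) := by
  rw [← integral_complex_ofReal]
  have h1 : ∀ x, ((‖hat μ G x‖ ^ 2 : ℝ) : ℂ) = ∫ p, K2 G p * ex ⟪x, p.1 - p.2⟫ ∂(μ.prod μ) :=
    hat_sq hG
  simp_rw [h1]
  rw [integral_integral_swap (pair_int hG t)]
  congr 1
  funext p
  rw [integral_const_mul, int_ex]

lemma cv_fin {τ κ : Measure (E n)} (hτ : IsFiniteMeasure τ) (hκ : IsProbabilityMeasure κ) :
    ∀ i, IsFiniteMeasure (cv τ κ i)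
  | 0 => hτ
  | i + 1 => by
      have := cv_fin hτ hκ i
      change IsFiniteMeasure ((cv τ κ i).conv κ)
      infer_instance

lemma cv_char {τ κ : Measure (E n)} (hτ : IsFiniteMeasure τ) (hκ : IsProbabilityMeasure κ)
    (z : E n) : ∀ i, charFun (cv τ κ i) z = charFun τ z * charFun κ z ^ i
  | 0 => by simp [cv]
  | i + 1 => by
      have := cv_fin hτ hκ i
      change charFun ((cv τ κ i).conv κ) z = _
      rw [charFun_conv, cv_char hτ hκ z i]
      ring

lemma char_meas (t : Measure (E n)) [IsFiniteMeasure t] (μ : Measure (E n × E n)) :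
    AEStronglyMeasurable (fun p : E n × E n => charFun t ((2 * Real.pi) • (p.1 - p.2))) μ := by
  apply Continuous.aestronglyMeasurable
  exact (continuous_charFun).comp (by fun_prop)

lemma char_bd (t : Measure (E n)) [IsFiniteMeasure t] : ∃ c : ℝ, ∀ z, ‖charFun t z‖ ≤ c :=
  ⟨_, fun z => norm_charFun_le z⟩

lemma term_int {μ : Measure (E n)} [SFinite μ] {G : E n → ℂ} (hG : Integrable G μ)
    (t : Measure (E n)) [IsFiniteMeasure t] :
    Integrable (fun p : E n × E n => K2 G p * charFun t ((2 * Real.pi) • (p.1 - p.2)))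
      (μ.prod μ) := by
  obtain ⟨c, hc⟩ := char_bd t
  exact (K2_int hG).mul_bdd (char_meas t _) (Filter.Eventually.of_forall fun p => hc _)

/-- Piece KER. -/
theorem main : S_KER := by
  intro n τ κ hτ hκ μ G hμ hG M B hB hbd
  have hfin := fun i => cv_fin hτ hκ i
  set Q : ℕ → ℝ := fun i => ∫ x, ‖hat μ G x‖ ^ 2 ∂(cv τ κ i) with hQ
  have hQ0 : ∀ i, 0 ≤ Q i := fun i => integral_nonneg fun x => by positivity
  -- the alternating sum
  have hsum : (((∑ i ∈ range (M + 1), (-1 : ℝ) ^ i * (M.choose i) * Q i : ℝ)) : ℂ) =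
      ∫ p, K2 G p * (charFun τ ((2 * Real.pi) • (p.1 - p.2)) *
        (1 - charFun κ ((2 * Real.pi) • (p.1 - p.2))) ^ M) ∂(μ.prod μ) := by
    push_cast
    have h1 : ∀ i ∈ range (M + 1), ((-1 : ℂ) ^ i * (M.choose i : ℂ) * (Q i : ℂ)) =
        ∫ p, (-1 : ℂ) ^ i * (M.choose i : ℂ) *
          (K2 G p * charFun (cv τ κ i) ((2 * Real.pi) • (p.1 - p.2))) ∂(μ.prod μ) := by
      intro i _
      have := hfin i
      rw [integral_const_mul, ← quad hG (cv τ κ i)]
    rw [Finset.sum_congr rfl h1, ← integral_finsetSum]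
    · congr 1
      funext p
      have h2 : (1 - charFun κ ((2 * Real.pi) • (p.1 - p.2))) ^ M =
          ∑ i ∈ range (M + 1), (-1 : ℂ) ^ i * (M.choose i : ℂ) *
            charFun κ ((2 * Real.pi) • (p.1 - p.2)) ^ i := by
        have := add_pow (-charFun κ ((2 * Real.pi) • (p.1 - p.2))) 1 M
        rw [show (1 - charFun κ ((2 * Real.pi) • (p.1 - p.2))) =
          -charFun κ ((2 * Real.pi) • (p.1 - p.2)) + 1 by ring, this]
        apply Finset.sum_congr rfl
        intro i _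
        rw [neg_pow]
        simp
        ring
      rw [h2, Finset.mul_sum, Finset.mul_sum]
      apply Finset.sum_congr rfl
      intro i _
      rw [cv_char hτ hκ]
      ring
    · intro i _
      have := hfin i
      exact (term_int hG (cv τ κ i)).const_mul _
  have hbound : |∑ i ∈ range (M + 1), (-1 : ℝ) ^ i * (M.choose i) * Q i| ≤
      B * (∫ ξ, ‖G ξ‖ ∂μ) ^ 2 := by
    have h1 : |∑ i ∈ range (M + 1), (-1 : ℝ) ^ i * (M.choose i) * Q i| =
        ‖((∑ i ∈ range (M + 1), (-1 : ℝ) ^ i * (M.choose i) * Q i : ℝ) : ℂ)‖ := by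
      rw [Complex.norm_real, Real.norm_eq_abs]
    rw [h1, hsum]
    have h2 : Integrable (fun p : E n × E n => ‖K2 G p‖ * B) (μ.prod μ) :=
      (K2_int hG).norm.mul_const B
    refine (norm_integral_le_of_norm_le h2 (Filter.Eventually.of_forall fun p => ?_)).trans ?_
    · rw [norm_mul]
      apply mul_le_mul_of_nonneg_left _ (norm_nonneg _)
      rw [norm_mul, norm_pow]
      exact hbd _
    · rw [integral_mul_const, mul_comm]
      apply le_of_eq
      congr 1
      rw [sq, ← integral_prod_mul (fun ξ => ‖G ξ‖) (fun ξ => ‖G ξ‖)]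
      congr 1
      funext p
      simp [K2]
  have hsplit : ∑ i ∈ range (M + 1), (-1 : ℝ) ^ i * (M.choose i) * Q i =
      Q 0 + ∑ i ∈ Icc 1 M, (-1 : ℝ) ^ i * (M.choose i) * Q i := by
    rw [Finset.range_eq_Ico, Finset.sum_eq_sum_Ico_succ_bot (Nat.succ_pos M)]
    simp
    rfl
  have h3 : -(∑ i ∈ Icc 1 M, (M.choose i : ℝ) * Q i) ≤
      ∑ i ∈ Icc 1 M, (-1 : ℝ) ^ i * (M.choose i) * Q i := by
    rw [← Finset.sum_neg_distrib]
    apply Finset.sum_le_sum
    intro i _
    have h4 : 0 ≤ (M.choose i : ℝ) * Q i := mul_nonneg (by positivity) (hQ0 i)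
    rcases neg_one_pow_eq_or ℝ i with h | h
    · rw [h]; linarith
    · rw [h]; linarith
  have h5 := (abs_le.1 hbound).2
  rw [hsplit] at h5
  change Q 0 ≤ _
  linarith

end Pool.Agent.N614.CY.KER
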